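import Pool.Agent.Lib.MP_464db4_gt.TG.Geo

/-!
# TG-GeoF: the maps `T.F γ`
Port of TF/GeoF.lean.
* `F_tr`: `A_γ(t) (z + per t v) + σ_γ(t) = (A_γ(t) z + σ_γ(t)) + per (γ t) (ρ_γ v)` (`T.A_per`).
* `F_mul`: `T.comp` and `mob_mul`.
* `jac_F_tr`: differentiate `F_tr` on the open set `tot κ halfPlane` with `jac_comp` (YT-WirtB), `jac_tr`; `jac` depends only on the germ (`dz_congr_on`).
* `bas_F` is immediate; `F_hol`: `mob_hol`, `A_hol`, `σ_hol`.
-/

namespace TGam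

open Complex Matrix MeasureTheory YT
open scoped ContDiff ComplexConjugate ComplexOrder

variable {κ : Type} [Fintype κ] [DecidableEq κ] {G : Type} [Group G] {pr : G →* Matrix.SpecialLinearGroup (Fin 2) ℝ} (T : TorusFamily κ pr)

private theorem GeoF_inl (γ : G) (x : Unit ⊕ κ → ℂ) (i : Unit) : T.F γ x (Sum.inl i) = mob (pr γ) (bas x) i := rfl

private theorem GeoF_inr (γ : G) (x : Unit ⊕ κ → ℂ) (k : κ) :
    T.F γ x (Sum.inr k) = (∑ l, T.A γ (bas x) k l * x (Sum.inr l)) + T.σ γ (bas x) k := rfl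

theorem bas_F (γ : G) (x : Unit ⊕ κ → ℂ) : bas (T.F γ x) = mob (pr γ) (bas x) := by
  rfl

theorem F_mem (γ : G) {x : Unit ⊕ κ → ℂ} (hx : x ∈ tot κ halfPlane) : T.F γ x ∈ tot κ halfPlane := by
  show bas (T.F γ x) ∈ halfPlane
  rw [bas_F]
  exact mob_mem _ hx

private theorem GeoF_A_hol (γ : G) (k l : κ) :
    DifferentiableOn ℂ (fun x : Unit ⊕ κ → ℂ => T.A γ (bas x) k l) (tot κ halfPlane) := by
  have hb : DifferentiableOn ℂ (fun x : Unit ⊕ κ → ℂ => bas x) (tot κ halfPlane) :=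
    (geo_basL Unit κ).differentiable.differentiableOn
  exact (T.A_hol γ k l).comp hb (fun x hx => hx)

private theorem GeoF_σ_hol (γ : G) (k : κ) :
    DifferentiableOn ℂ (fun x : Unit ⊕ κ → ℂ => T.σ γ (bas x) k) (tot κ halfPlane) := by
  have hb : DifferentiableOn ℂ (fun x : Unit ⊕ κ → ℂ => bas x) (tot κ halfPlane) :=
    (geo_basL Unit κ).differentiable.differentiableOn
  exact (T.σ_hol γ k).comp hb (fun x hx => hx)

theorem F_hol (γ : G) : DifferentiableOn ℂ (T.F γ) (tot κ halfPlane) := by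
  rw [differentiableOn_pi]
  have hb : DifferentiableOn ℂ (fun x : Unit ⊕ κ → ℂ => bas x) (tot κ halfPlane) :=
    (geo_basL Unit κ).differentiable.differentiableOn
  rintro (i | k)
  · exact (differentiableOn_pi.mp (mob_hol (pr γ)) i).comp hb (fun x hx => hx)
  · have h2 : DifferentiableOn ℂ (fun x : Unit ⊕ κ → ℂ => ∑ l, T.A γ (bas x) k l * x (Sum.inr l)) (tot κ halfPlane) := by
      apply DifferentiableOn.fun_sum
      intro l _
      exact (GeoF_A_hol T γ k l).mul (differentiable_apply (𝕜 := ℂ) (Sum.inr l : Unit ⊕ κ)).differentiableOn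
    exact h2.add (GeoF_σ_hol T γ k)

theorem F_tr (γ : G) (v : κ → ℂ) {x : Unit ⊕ κ → ℂ} (hx : x ∈ tot κ halfPlane) :
    T.F γ (T.tr v x) = T.tr (T.ρ γ v) (T.F γ x) := by
  have hA : T.A γ (bas x) *ᵥ T.per (bas x) v = T.per (mob (pr γ) (bas x)) (T.ρ γ v) := T.A_per γ (bas x) hx v
  have h1 : T.F γ (T.tr v x) =
      pt (mob (pr γ) (bas x)) (T.A γ (bas x) *ᵥ (fib x + T.per (bas x) v) + T.σ γ (bas x)) := by
    unfold TorusFamily.F
    rw [bas_tr]
    rfl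
  have h2 : T.tr (T.ρ γ v) (T.F γ x) =
      pt (mob (pr γ) (bas x)) (T.A γ (bas x) *ᵥ fib x + T.σ γ (bas x)) + pt 0 (T.per (mob (pr γ) (bas x)) (T.ρ γ v)) := rfl
  rw [h1, h2, ← hA, ← pt_add, add_zero, Matrix.mulVec_add]
  congr 1
  abel

theorem F_mul (γ δ : G) : ∃ v ∈ T.Λ, ∀ x ∈ tot κ halfPlane, T.F γ (T.F δ x) = T.tr v (T.F (γ * δ) x) := by
  obtain ⟨v, hv, h⟩ := T.comp γ δ
  refine ⟨v, hv, fun x hx => ?_⟩
  have h1 := h (bas x) hx (fib x)
  have h2 : T.F γ (T.F δ x) = pt (mob (pr γ) (mob (pr δ) (bas x)))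
      (T.A γ (mob (pr δ) (bas x)) *ᵥ (T.A δ (bas x) *ᵥ fib x + T.σ δ (bas x)) + T.σ γ (mob (pr δ) (bas x))) := rfl
  have h3 : T.tr v (T.F (γ * δ) x) =
      pt (mob (pr (γ * δ)) (bas x)) (T.A (γ * δ) (bas x) *ᵥ fib x + T.σ (γ * δ) (bas x)) +
        pt 0 (perOf (T.Z₁ (mob (pr (γ * δ)) (bas x)))
          (T.Z₂ (mob (pr (γ * δ)) (bas x))) v) := rfl
  have h4 : mob (pr (γ * δ)) (bas x) = mob (pr γ) (mob (pr δ) (bas x)) :=
    (congrArg (fun q => mob q (bas x)) (map_mul pr γ δ)).trans (mob_mul (pr γ) (pr δ) (x := bas x) hx)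
  rw [h2, h3, ← pt_add, add_zero, h1, h4]

private theorem GeoF_jac_congr {F H : (Unit ⊕ κ → ℂ) → (Unit ⊕ κ → ℂ)} (h : ∀ y ∈ tot κ halfPlane, F y = H y)
    {x : Unit ⊕ κ → ℂ} (hx : x ∈ tot κ halfPlane) : jac F x = jac H x := by
  ext k i
  exact dz_congr_on (isOpen_tot isOpen_halfPlane) (fun y hy => congrFun (h y hy) k) hx i

private theorem GeoF_diffAt (γ : G) {x : Unit ⊕ κ → ℂ} (hx : x ∈ tot κ halfPlane) : DifferentiableAt ℂ (T.F γ) x :=
  (F_hol T γ).differentiableAt ((isOpen_tot isOpen_halfPlane).mem_nhds hx)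

private theorem GeoF_diffTr (v : κ → ℂ) {x : Unit ⊕ κ → ℂ} (hx : x ∈ tot κ halfPlane) : DifferentiableAt ℂ (T.tr v) x :=
  (tr_hol T v).differentiableAt ((isOpen_tot isOpen_halfPlane).mem_nhds hx)

theorem jac_F_tr (γ : G) (v : κ → ℂ) {x : Unit ⊕ κ → ℂ} (hx : x ∈ tot κ halfPlane) :
    jac (T.F γ) (T.tr v x) * trJ T (bas x) v = trJ T (bas (T.F γ x)) (T.ρ γ v) * jac (T.F γ) x := by
  have h1 := jac_comp (F := T.tr v) (H := T.F γ) (GeoF_diffTr T v hx) (GeoF_diffAt T γ (tr_mem T v hx))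
  have h2 := jac_comp (F := T.F γ) (H := T.tr (T.ρ γ v)) (GeoF_diffAt T γ hx) (GeoF_diffTr T (T.ρ γ v) (F_mem T γ hx))
  rw [jac_tr T v hx] at h1
  rw [jac_tr T (T.ρ γ v) (F_mem T γ hx)] at h2
  rw [← h1, ← h2]
  exact GeoF_jac_congr (fun y hy => F_tr T γ v hy) hx

/-- The first row of the Jacobian of `T.F γ`. -/
theorem jac_F_inl (γ : G) {x : Unit ⊕ κ → ℂ} (hx : x ∈ tot κ halfPlane) (i : Unit ⊕ κ) :
    jac (T.F γ) x (Sum.inl ()) i = if i = Sum.inl () then mj (pr γ) (bas x) else 0 := by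
  have hx' : bas x ∈ halfPlane := hx
  have hn : halfPlane ∈ nhds (bas x) := isOpen_halfPlane.mem_nhds hx'
  have hm : DifferentiableAt ℝ (fun b => mob (pr γ) b ()) (bas x) :=
    ((differentiableOn_pi.mp (mob_hol (pr γ)) ()).differentiableAt hn).restrictScalars ℝ
  rcases i with i | i
  · rw [if_pos rfl]
    exact (dz_bas_inl (κ := κ) (x := x) hm i).trans (jac_mob (pr γ) hx' () i)
  · rw [if_neg (by simp)]
    exact dz_bas_inr (κ := κ) (x := x) hm i

/-- The lower right block of the Jacobian of `T.F γ`. -/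
theorem jac_F_inr (γ : G) {x : Unit ⊕ κ → ℂ} (hx : x ∈ tot κ halfPlane) (k l : κ) :
    jac (T.F γ) x (Sum.inr k) (Sum.inr l) = T.A γ (bas x) k l := by
  have hx' : bas x ∈ halfPlane := hx
  have hn : halfPlane ∈ nhds (bas x) := isOpen_halfPlane.mem_nhds hx'
  have hA : ∀ m, DifferentiableAt ℝ (fun b => T.A γ b k m) (bas x) := fun m =>
    ((T.A_hol γ k m).differentiableAt hn).restrictScalars ℝ
  have hσ : DifferentiableAt ℝ (fun b => T.σ γ b k) (bas x) := ((T.σ_hol γ k).differentiableAt hn).restrictScalars ℝ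
  have hb : DifferentiableAt ℝ (fun y : Unit ⊕ κ → ℂ => bas y) x := ((geo_basL Unit κ).restrictScalars ℝ).differentiableAt
  have hAb : ∀ m, DifferentiableAt ℝ (fun y : Unit ⊕ κ → ℂ => T.A γ (bas y) k m) x := fun m =>
    DifferentiableAt.comp x (g := fun b : Unit → ℂ => T.A γ b k m) (f := fun y : Unit ⊕ κ → ℂ => bas y) (hA m) hb
  have hσb : DifferentiableAt ℝ (fun y : Unit ⊕ κ → ℂ => T.σ γ (bas y) k) x :=
    DifferentiableAt.comp x (g := fun b : Unit → ℂ => T.σ γ b k) (f := fun y : Unit ⊕ κ → ℂ => bas y) hσ hb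
  have hc : ∀ m, DifferentiableAt ℝ (fun y : Unit ⊕ κ → ℂ => y (Sum.inr m)) x := fun m => by fun_prop
  have hp : ∀ m ∈ (Finset.univ : Finset κ), DifferentiableAt ℝ (fun y : Unit ⊕ κ → ℂ => T.A γ (bas y) k m * y (Sum.inr m)) x :=
    fun m _ => (hAb m).fun_mul (hc m)
  have e0 : jac (T.F γ) x (Sum.inr k) (Sum.inr l) =
      dz (Sum.inr l) (fun y : Unit ⊕ κ → ℂ => (∑ m, T.A γ (bas y) k m * y (Sum.inr m)) + T.σ γ (bas y) k) x := rfl
  rw [e0, dz_add (Sum.inr l) (DifferentiableAt.fun_sum hp) hσb, dz_sum _ _ _ hp,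
    dz_bas_inr (f := fun b : Unit → ℂ => T.σ γ b k) hσ l, add_zero]
  have h1 : ∀ m ∈ (Finset.univ : Finset κ), dz (Sum.inr l) (fun y : Unit ⊕ κ → ℂ => T.A γ (bas y) k m * y (Sum.inr m)) x =
      if m = l then T.A γ (bas x) k m else 0 := by
    intro m _
    rw [dz_mul _ (hAb m) (hc m), dz_bas_inr (f := fun b : Unit → ℂ => T.A γ b k m) (hA m) l, geo_dz_coord]
    by_cases hml : m = l
    · subst hml
      rw [if_pos rfl, if_pos rfl]
      ring
    · rw [if_neg (by simpa using hml), if_neg hml]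
      ring
  rw [Finset.sum_congr rfl h1, Finset.sum_ite_eq' Finset.univ l, if_pos (Finset.mem_univ l)]

end TGam
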