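import Pool.Agent.Lib.MP_464db4_gt.TG.Pb
import Pool.Agent.Lib.MP_464db4_gt.YT.ExB

/-!
# TG-HomA: contraction with the vector field of the translations, Cartan's formula
Port of TF/HomA.lean.  `X = pt 0 (per t w)` is holomorphic: `dz i X_l = trN (inr l) i`, `dzbar i X_l = 0` (`dz_per`, `dzbar_per`); `trN` is now complex and depends on `bas x`.
`ct w g x i = -I * ∑ l, g x i (inr l) * conj (X l)`.
* `ct_sym`: `dz i (conj X_l) = conj (dzbar i X_l) = 0`, so `dz i (ct j) = -I ∑ l, dz i (g · j (inr l)) x * conj X_l`, symmetric by closedness.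
* `ct_lie`: with `conj (g j l) = g l j`, `-I * (dz i (conj ct_j) - dzbar j ct_i) = ∑ l, dz i (g_(l j) X_l) + ∑ l, dzbar j (g_(i l) conj X_l)`
  `= ∑ l (dz i g_lj) X_l + g_lj dz i X_l + (dzbar j g_il) conj X_l + g_il conj (dz j X_l)`, `dz i g_lj = dz l g_ij` (closed), `dzbar j g_il = dzbar l g_ij` (`closed_bar`, YT-ExB);
  the first and third terms give `fderiv ℝ (g · i j) x (pt 0 X)` (`fderiv_eq_sum`), the others `(trNᵀ g + g mconj trN) i j`.
* `pbt_deriv`: `pbt (s•w) g x = Jᵀ g (tr (s•w) x) J̄`, `J = 1 + s N` (`trJ_smul`), `N = trN`, `N * N = 0` (`trN_sq`), `d/ds tr (s•w) x = pt 0 X` (constant in `s`, `per_smul`), so the derivative is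
  `Nᵀ M J̄ + Jᵀ M N̄ + Jᵀ (fderiv g (tr (s•w) x) (pt 0 X)) J̄`, `M = g (tr (s•w) x)`; `Nᵀ = Nᵀ Jᵀ` as `J N = N`; and `fderiv (pbt (s•w) g · i j) x (pt 0 X)` is the `(i,j)` entry of
  `Jᵀ (fderiv g (tr (s•w) x) (pt 0 X)) J̄`, because along `pt 0 X` the base point does not change: restrict to the line `τ ↦ x + τ • pt 0 X`, `tr (s•w) (x + τ • pt 0 X) = tr (s•w) x + τ • pt 0 X`, `bas` is constant.
-/

namespace TGam

open Complex Matrix MeasureTheory YT
open scoped ContDiff ComplexConjugate ComplexOrder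

variable {κ : Type} [Fintype κ] [DecidableEq κ] {G : Type} [Group G] {pr : G →* Matrix.SpecialLinearGroup (Fin 2) ℝ} {T : TorusFamily κ pr}
  {S : Set ((Unit ⊕ κ → ℂ) → (Unit ⊕ κ → ℂ))} {g : (Unit ⊕ κ → ℂ) → Matrix (Unit ⊕ κ) (Unit ⊕ κ) ℂ}

/-- The contraction of `g` with the vector field of the translations `tr (s • w)`. -/
noncomputable def ct (T : TorusFamily κ pr) (w : κ → ℂ) (g : (Unit ⊕ κ → ℂ) → Matrix (Unit ⊕ κ) (Unit ⊕ κ) ℂ) (x : Unit ⊕ κ → ℂ)
    (i : Unit ⊕ κ) : ℂ :=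
  -I * ∑ l, g x i (Sum.inr l) * conj (T.per (bas x) w l)

/-- The Lie derivative of `g`. -/
noncomputable def lie (T : TorusFamily κ pr) (w : κ → ℂ) (g : (Unit ⊕ κ → ℂ) → Matrix (Unit ⊕ κ) (Unit ⊕ κ) ℂ) (x : Unit ⊕ κ → ℂ)
    (i j : Unit ⊕ κ) : ℂ :=
  fderiv ℝ (fun y => g y i j) x (pt 0 (T.per (bas x) w)) + ((trN T (bas x) w)ᵀ * g x + g x * mconj (trN T (bas x) w)) i j

private theorem homA_open : IsOpen (tot κ halfPlane) := isOpen_tot isOpen_halfPlane

private theorem homA_per_smooth (w : κ → ℂ) (l : κ) :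
    ContDiffOn ℝ ∞ (fun x : Unit ⊕ κ → ℂ => T.per (bas x) w l) (tot κ halfPlane) :=
  (per_joint T l).comp (s := tot κ halfPlane) (t := tot κ halfPlane ×ˢ Set.univ)
    (f := fun x : Unit ⊕ κ → ℂ => (x, w)) (contDiffOn_id.prodMk contDiffOn_const) (fun _ hy => ⟨hy, Set.mem_univ _⟩)

private theorem homA_per_diff (w : κ → ℂ) (l : κ) {x : Unit ⊕ κ → ℂ} (hx : x ∈ tot κ halfPlane) :
    DifferentiableAt ℝ (fun x : Unit ⊕ κ → ℂ => T.per (bas x) w l) x :=
  ((homA_per_smooth w l).contDiffAt (homA_open.mem_nhds hx)).differentiableAt (by simp)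

private theorem homA_cper_diff (w : κ → ℂ) (l : κ) {x : Unit ⊕ κ → ℂ} (hx : x ∈ tot κ halfPlane) :
    DifferentiableAt ℝ (fun x : Unit ⊕ κ → ℂ => conj (T.per (bas x) w l)) x :=
  Complex.conjCLE.differentiableAt.comp x (homA_per_diff w l hx)

private theorem homA_g_diff (hg : IsKahler (tot κ halfPlane) S g) {x : Unit ⊕ κ → ℂ} (hx : x ∈ tot κ halfPlane) (i j : Unit ⊕ κ) :
    DifferentiableAt ℝ (fun y => g y i j) x :=
  ((hg.smooth i j).contDiffAt (homA_open.mem_nhds hx)).differentiableAt (by simp)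

theorem ct_joint (hg : IsKahler (tot κ halfPlane) S g) (i : Unit ⊕ κ) :
    ContDiffOn ℝ ∞ (fun q : (Unit ⊕ κ → ℂ) × (ℝ × (κ → ℂ)) => ct T q.2.2 (pbt T (q.2.1 • q.2.2) g) q.1 i) (tot κ halfPlane ×ˢ Set.univ) := by
  unfold ct
  refine contDiffOn_const.mul (ContDiffOn.sum fun l _ => ContDiffOn.mul ?_ ?_)
  · exact (pbt_joint hg i (Sum.inr l)).comp (s := tot κ halfPlane ×ˢ Set.univ)
      (f := fun q : (Unit ⊕ κ → ℂ) × (ℝ × (κ → ℂ)) => (q.1, q.2.1 • q.2.2))
      (contDiff_fst.prodMk (contDiff_snd.fst.smul contDiff_snd.snd)).contDiffOn (fun q hq => ⟨hq.1, Set.mem_univ _⟩)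
  · exact Complex.conjCLE.contDiff.comp_contDiffOn ((per_joint T l).comp (s := tot κ halfPlane ×ˢ Set.univ)
      (f := fun q : (Unit ⊕ κ → ℂ) × (ℝ × (κ → ℂ)) => (q.1, q.2.2))
      (contDiff_fst.prodMk contDiff_snd.snd).contDiffOn (fun q hq => ⟨hq.1, Set.mem_univ _⟩))

theorem ct_smooth (hg : IsKahler (tot κ halfPlane) S g) (w : κ → ℂ) (i : Unit ⊕ κ) :
    ContDiffOn ℝ ∞ (fun x => ct T w g x i) (tot κ halfPlane) := by
  unfold ct
  exact contDiffOn_const.mul (ContDiffOn.sum fun l _ => (hg.smooth i (Sum.inr l)).mul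
    (Complex.conjCLE.contDiff.comp_contDiffOn (homA_per_smooth w l)))

private theorem ct_dz (hg : IsKahler (tot κ halfPlane) S g) (w : κ → ℂ) {x : Unit ⊕ κ → ℂ} (hx : x ∈ tot κ halfPlane) (i j : Unit ⊕ κ) :
    dz i (fun y => ct T w g y j) x = -I * ∑ l, dz i (fun y => g y j (Sum.inr l)) x * conj (T.per (bas x) w l) := by
  have hd : ∀ l, DifferentiableAt ℝ (fun y => g y j (Sum.inr l) * conj (T.per (bas y) w l)) x := fun l =>
    (homA_g_diff hg hx j (Sum.inr l)).mul (homA_cper_diff w l hx)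
  unfold ct
  rw [dz_const_mul i (-I) (DifferentiableAt.fun_sum fun l _ => hd l),
    dz_sum Finset.univ (fun l y => g y j (Sum.inr l) * conj (T.per (bas y) w l)) i (fun l _ => hd l)]
  congr 1
  refine Finset.sum_congr rfl fun l _ => ?_
  rw [dz_mul i (homA_g_diff hg hx j (Sum.inr l)) (homA_cper_diff w l hx), dz_conj, dzbar_per T w hx]
  simp

private theorem ct_dzbar (hg : IsKahler (tot κ halfPlane) S g) (w : κ → ℂ) {x : Unit ⊕ κ → ℂ} (hx : x ∈ tot κ halfPlane) (i j : Unit ⊕ κ) :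
    dzbar j (fun y => ct T w g y i) x = -I * ∑ l, (dzbar j (fun y => g y i (Sum.inr l)) x * conj (T.per (bas x) w l) +
      g x i (Sum.inr l) * conj (trN T (bas x) w (Sum.inr l) j)) := by
  have hd : ∀ l, DifferentiableAt ℝ (fun y => g y i (Sum.inr l) * conj (T.per (bas y) w l)) x := fun l =>
    (homA_g_diff hg hx i (Sum.inr l)).mul (homA_cper_diff w l hx)
  unfold ct
  rw [dzbar_const_mul j (-I) (DifferentiableAt.fun_sum fun l _ => hd l),
    dzbar_sum Finset.univ (fun l y => g y i (Sum.inr l) * conj (T.per (bas y) w l)) j (fun l _ => hd l)]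
  congr 1
  refine Finset.sum_congr rfl fun l _ => ?_
  rw [dzbar_mul j (homA_g_diff hg hx i (Sum.inr l)) (homA_cper_diff w l hx), dzbar_conj, dz_per T w hx]

theorem ct_sym (hg : IsKahler (tot κ halfPlane) S g) (w : κ → ℂ) {x : Unit ⊕ κ → ℂ} (hx : x ∈ tot κ halfPlane) (i j : Unit ⊕ κ) :
    dz i (fun y => ct T w g y j) x = dz j (fun y => ct T w g y i) x := by
  rw [ct_dz hg w hx i j, ct_dz hg w hx j i]
  congr 1
  exact Finset.sum_congr rfl fun l _ => by rw [hg.closed x hx j (Sum.inr l) i]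

theorem ct_lie (hg : IsKahler (tot κ halfPlane) S g) (w : κ → ℂ) {x : Unit ⊕ κ → ℂ} (hx : x ∈ tot κ halfPlane) (i j : Unit ⊕ κ) :
    -I * (dz i (fun y => conj (ct T w g y j)) x - dzbar j (fun y => ct T w g y i) x) = lie T w g x i j := by
  have h1 : dz i (fun y => conj (ct T w g y j)) x = I * ∑ l, (T.per (bas x) w l * dz (Sum.inr l) (fun y => g y i j) x +
      g x (Sum.inr l) j * trN T (bas x) w (Sum.inr l) i) := by
    rw [dz_conj, ct_dzbar hg w hx j i, map_mul, map_neg, conj_I, neg_neg, map_sum]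
    congr 1
    refine Finset.sum_congr rfl fun l _ => ?_
    rw [map_add, map_mul, map_mul, Complex.conj_conj, Complex.conj_conj, conj_entry_dzbar homA_open hg hx,
      hg.closed x hx (Sum.inr l) j i]
    have h2 : conj (g x j (Sum.inr l)) = g x (Sum.inr l) j := (hg.pos x hx).isHermitian.apply (Sum.inr l) j
    rw [h2]
    ring
  have h3 : dzbar j (fun y => ct T w g y i) x = -I * ∑ l, (conj (T.per (bas x) w l) * dzbar (Sum.inr l) (fun y => g y i j) x +
      g x i (Sum.inr l) * conj (trN T (bas x) w (Sum.inr l) j)) := by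
    rw [ct_dzbar hg w hx i j]
    congr 1
    refine Finset.sum_congr rfl fun l _ => ?_
    rw [closed_bar homA_open hg hx i (Sum.inr l) j]
    ring
  have h4 : lie T w g x i j = (∑ l, (T.per (bas x) w l * dz (Sum.inr l) (fun y => g y i j) x +
      g x (Sum.inr l) j * trN T (bas x) w (Sum.inr l) i)) + ∑ l, (conj (T.per (bas x) w l) * dzbar (Sum.inr l) (fun y => g y i j) x +
      g x i (Sum.inr l) * conj (trN T (bas x) w (Sum.inr l) j)) := by
    have z0 : ∀ (u : Unit) (m : Unit ⊕ κ), trN T (bas x) w (Sum.inl u) m = 0 := by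
      intro u m
      rcases m with m | m <;> simp [trN]
    have z1 : ∀ u : Unit, (pt 0 (T.per (bas x) w) : Unit ⊕ κ → ℂ) (Sum.inl u) = 0 := fun _ => rfl
    have z2 : ∀ l : κ, (pt 0 (T.per (bas x) w) : Unit ⊕ κ → ℂ) (Sum.inr l) = T.per (bas x) w l := fun _ => rfl
    have e1 : ((trN T (bas x) w)ᵀ * g x) i j = ∑ l, trN T (bas x) w (Sum.inr l) i * g x (Sum.inr l) j := by
      rw [Matrix.mul_apply, Fintype.sum_sum_type]
      simp only [Matrix.transpose_apply, z0, zero_mul, Finset.sum_const_zero, zero_add]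
    have e2 : (g x * mconj (trN T (bas x) w)) i j = ∑ l, g x i (Sum.inr l) * conj (trN T (bas x) w (Sum.inr l) j) := by
      have e3 : ∀ k m, mconj (trN T (bas x) w) k m = conj (trN T (bas x) w k m) := fun _ _ => rfl
      rw [Matrix.mul_apply, Fintype.sum_sum_type]
      simp only [e3, z0, map_zero, mul_zero, Finset.sum_const_zero, zero_add]
    unfold lie
    rw [Matrix.add_apply, e1, e2, fderiv_eq_sum, Fintype.sum_sum_type]
    simp only [z1, z2, map_zero, zero_mul, add_zero, Finset.sum_const_zero, zero_add, Finset.sum_add_distrib]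
    have e4 : ∑ l, trN T (bas x) w (Sum.inr l) i * g x (Sum.inr l) j = ∑ l, g x (Sum.inr l) j * trN T (bas x) w (Sum.inr l) i :=
      Finset.sum_congr rfl fun l _ => mul_comm _ _
    rw [e4]
    ring
  rw [h1, h3, h4]
  have hI : I * I = -1 := I_mul_I
  linear_combination (-(∑ l, (T.per (bas x) w l * dz (Sum.inr l) (fun y => g y i j) x +
      g x (Sum.inr l) j * trN T (bas x) w (Sum.inr l) i)) - ∑ l, (conj (T.per (bas x) w l) * dzbar (Sum.inr l) (fun y => g y i j) x +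
      g x i (Sum.inr l) * conj (trN T (bas x) w (Sum.inr l) j))) * hI

private theorem homA_entry {ι : Type} [Fintype ι] (A M B : Matrix ι ι ℂ) (i j : ι) :
    (Aᵀ * M * mconj B) i j = ∑ k, ∑ l, A k i * M k l * conj (B l j) := by
  rw [Matrix.mul_apply, Finset.sum_comm]
  refine Finset.sum_congr rfl fun l _ => ?_
  rw [Matrix.mul_apply, Finset.sum_mul]
  rfl

private theorem homA_line (w : κ → ℂ) (x : Unit ⊕ κ → ℂ) (s : ℝ) : T.tr (s • w) x = x + s • pt 0 (T.per (bas x) w) := by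
  rw [TorusFamily.tr, per_smul, smul_pt]
  rfl

private theorem homA_trJ (w : κ → ℂ) {b : Unit → ℂ} (hb : b ∈ halfPlane) (k i : Unit ⊕ κ) (s : ℝ) :
    HasDerivAt (fun s : ℝ => trJ T b (s • w) k i) (trN T b w k i) s := by
  have e1 : (fun s : ℝ => trJ T b (s • w) k i) = fun s : ℝ => (1 : Matrix (Unit ⊕ κ) (Unit ⊕ κ) ℂ) k i + (s : ℂ) * trN T b w k i := by
    funext s
    rw [trJ_smul T hb]
    rfl
  rw [e1]
  simpa using ((Complex.ofRealCLM.hasDerivAt (x := s)).mul_const (trN T b w k i)).const_add ((1 : Matrix (Unit ⊕ κ) (Unit ⊕ κ) ℂ) k i)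

private theorem homA_trJN {b : Unit → ℂ} (hb : b ∈ halfPlane) (s : ℝ) (w : κ → ℂ) : trJ T b (s • w) * trN T b w = trN T b w := by
  rw [trJ_smul T hb, add_mul, one_mul, smul_mul_assoc, trN_sq, smul_zero, add_zero]

private theorem homA_mconj_mul {ι : Type} [Fintype ι] (M N : Matrix ι ι ℂ) : mconj (M * N) = mconj M * mconj N := by
  unfold mconj
  exact Matrix.map_mul

private theorem homA_fderiv (hg : IsKahler (tot κ halfPlane) S g) (v : κ → ℂ) {x : Unit ⊕ κ → ℂ} (hx : x ∈ tot κ halfPlane)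
    (i j : Unit ⊕ κ) (a : κ → ℂ) :
    fderiv ℝ (fun y => pbt T v g y i j) x (pt 0 a) =
      ∑ k, ∑ l, trJ T (bas x) v k i * fderiv ℝ (fun y => g y k l) (T.tr v x) (pt 0 a) * conj (trJ T (bas x) v l j) := by
  have hline : ∀ y : Unit ⊕ κ → ℂ, HasDerivAt (fun s : ℝ => y + s • (pt 0 a : Unit ⊕ κ → ℂ)) (pt 0 a) 0 := fun y => by
    simpa using ((hasDerivAt_id (0 : ℝ)).smul_const (pt 0 a : Unit ⊕ κ → ℂ)).const_add y
  have h1 : HasDerivAt (fun s : ℝ => pbt T v g (x + s • pt 0 a) i j) (fderiv ℝ (fun y => pbt T v g y i j) x (pt 0 a)) 0 := by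
    have hf : HasFDerivAt (fun y => pbt T v g y i j) (fderiv ℝ (fun y => pbt T v g y i j) x) (x + (0 : ℝ) • (pt 0 a : Unit ⊕ κ → ℂ)) := by
      rw [zero_smul, add_zero]
      exact (homA_g_diff (pbt_isKahler hg v) hx i j).hasFDerivAt
    exact HasFDerivAt.comp_hasDerivAt (0 : ℝ) (l := fun y => pbt T v g y i j) hf (hline x)
  have h2 : HasDerivAt (fun s : ℝ => ∑ k, ∑ l, trJ T (bas x) v k i * g (T.tr v x + s • pt 0 a) k l * conj (trJ T (bas x) v l j))
      (∑ k, ∑ l, trJ T (bas x) v k i * fderiv ℝ (fun y => g y k l) (T.tr v x) (pt 0 a) * conj (trJ T (bas x) v l j)) 0 := by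
    refine HasDerivAt.fun_sum (u := Finset.univ) fun k _ => HasDerivAt.fun_sum (u := Finset.univ) fun l _ =>
      HasDerivAt.mul_const (HasDerivAt.const_mul _ ?_) _
    have hf : HasFDerivAt (fun y => g y k l) (fderiv ℝ (fun y => g y k l) (T.tr v x)) (T.tr v x + (0 : ℝ) • (pt 0 a : Unit ⊕ κ → ℂ)) := by
      rw [zero_smul, add_zero]
      exact (homA_g_diff hg (tr_mem T v hx) k l).hasFDerivAt
    exact HasFDerivAt.comp_hasDerivAt (0 : ℝ) (l := fun y => g y k l) hf (hline (T.tr v x))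
  have e1 : (fun s : ℝ => pbt T v g (x + s • pt 0 a) i j) =
      fun s : ℝ => ∑ k, ∑ l, trJ T (bas x) v k i * g (T.tr v x + s • pt 0 a) k l * conj (trJ T (bas x) v l j) := by
    funext s
    have hb : bas (x + s • (pt 0 a : Unit ⊕ κ → ℂ)) = bas x := by
      rw [smul_pt, bas_add_pt]
    have ht : T.tr v (x + s • (pt 0 a : Unit ⊕ κ → ℂ)) = T.tr v x + s • (pt 0 a : Unit ⊕ κ → ℂ) := by
      simp only [TorusFamily.tr, hb]
      abel
    unfold pbt
    rw [hb, ht]
    exact homA_entry _ _ _ i j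
  rw [e1] at h1
  exact h1.unique h2

theorem pbt_deriv (hg : IsKahler (tot κ halfPlane) S g) (w : κ → ℂ) {x : Unit ⊕ κ → ℂ} (hx : x ∈ tot κ halfPlane) (i j : Unit ⊕ κ) (s : ℝ) :
    HasDerivAt (fun s : ℝ => pbt T (s • w) g x i j) (lie T w (pbt T (s • w) g) x i j) s := by
  have hb : bas x ∈ halfPlane := hx
  have h1 : HasDerivAt (fun s : ℝ => T.tr (s • w) x) (pt 0 (T.per (bas x) w)) s := by
    have e1 : (fun s : ℝ => T.tr (s • w) x) = fun s : ℝ => x + s • pt 0 (T.per (bas x) w) := by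
      funext s
      exact homA_line w x s
    rw [e1]
    simpa using ((hasDerivAt_id s).smul_const (pt 0 (T.per (bas x) w) : Unit ⊕ κ → ℂ)).const_add x
  have h2 : ∀ k l, HasDerivAt (fun s : ℝ => g (T.tr (s • w) x) k l)
      (fderiv ℝ (fun y => g y k l) (T.tr (s • w) x) (pt 0 (T.per (bas x) w))) s := fun k l =>
    HasFDerivAt.comp_hasDerivAt s (l := fun y => g y k l) (homA_g_diff hg (tr_mem T (s • w) hx) k l).hasFDerivAt h1
  have h3 : ∀ k l, HasDerivAt (fun s : ℝ => conj (trJ T (bas x) (s • w) k l)) (conj (trN T (bas x) w k l)) s := fun k l => by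
    have h := Complex.conjCLE.toContinuousLinearMap.hasFDerivAt.comp_hasDerivAt s (homA_trJ (T := T) w hb k l s)
    exact h
  have h4 := HasDerivAt.fun_sum (u := Finset.univ) (fun k _ => HasDerivAt.fun_sum (u := Finset.univ)
    (fun l _ => ((homA_trJ (T := T) w hb k i s).mul (h2 k l)).mul (h3 l j)))
  have e0 : (fun s : ℝ => pbt T (s • w) g x i j) = fun s : ℝ => ∑ k, ∑ l, trJ T (bas x) (s • w) k i * g (T.tr (s • w) x) k l *
      conj (trJ T (bas x) (s • w) l j) := by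
    funext s
    unfold pbt
    exact homA_entry _ _ _ i j
  rw [e0]
  refine h4.congr_deriv ?_
  have hN := homA_trJN (T := T) hb s w
  unfold lie
  rw [homA_fderiv hg (s • w) hx i j, Matrix.add_apply]
  have e1 : (trN T (bas x) w)ᵀ * pbt T (s • w) g x = (trN T (bas x) w)ᵀ * g (T.tr (s • w) x) * mconj (trJ T (bas x) (s • w)) := by
    have e2 : (trN T (bas x) w)ᵀ = (trN T (bas x) w)ᵀ * (trJ T (bas x) (s • w))ᵀ := by
      rw [← Matrix.transpose_mul, hN]
    unfold pbt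
    conv_rhs => rw [e2]
    simp only [Matrix.mul_assoc]
  have e3 : pbt T (s • w) g x * mconj (trN T (bas x) w) = (trJ T (bas x) (s • w))ᵀ * g (T.tr (s • w) x) * mconj (trN T (bas x) w) := by
    have e4 : mconj (trN T (bas x) w) = mconj (trJ T (bas x) (s • w)) * mconj (trN T (bas x) w) := by
      rw [← homA_mconj_mul, hN]
    unfold pbt
    conv_rhs => rw [e4]
    simp only [Matrix.mul_assoc]
  rw [e1, e3, homA_entry, homA_entry, ← Finset.sum_add_distrib, ← Finset.sum_add_distrib]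
  refine Finset.sum_congr rfl fun k _ => ?_
  rw [← Finset.sum_add_distrib, ← Finset.sum_add_distrib]
  refine Finset.sum_congr rfl fun l _ => ?_
  simp only [Pi.mul_apply]
  ring

end TGam
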