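import Pool.Agent.Lib.MP_464db4_gt.TG.HomB

/-!
# TG-One: averages of 1-forms
Port of TF/One.lean; `trJ T (bas x) v` depends on the base point (`bas_tr`: the base point of `tr v x` is that of `x`), `jac_F_tr` and `F_mul` as given in TF-GeoF.
* `pbt1_pbt1`: `trJ_mul`, `tr_tr`, needs `x ∈ tot`.
* `pbF1_mul`: `F γ (F δ x) = tr v (F (γδ) x)` on the open set, `v ∈ Λ`; differentiate (`jac_comp`, `jac_tr`): `jac (F γ) (F δ x) * jac (F δ) x = trJ T (bas (F (γδ) x)) v * jac (F (γδ)) x`, then `F_δ^* F_γ^* e = F_(γδ)^* (tr v)^* e = F_(γδ)^* e`.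
-/

namespace TGam

open Complex Matrix MeasureTheory YT
open scoped ContDiff ComplexConjugate ComplexOrder

variable {κ : Type} [Fintype κ] [DecidableEq κ] {G : Type} [Group G] {pr : G →* Matrix.SpecialLinearGroup (Fin 2) ℝ} {T : TorusFamily κ pr}
  {g : (Unit ⊕ κ → ℂ) → Matrix (Unit ⊕ κ) (Unit ⊕ κ) ℂ} {μ : Measure (κ → ℂ)} {e : (Unit ⊕ κ → ℂ) → (Unit ⊕ κ → ℂ)}

/-- The pull-back of a 1-form under `tr v`. -/
noncomputable def pbt1 (T : TorusFamily κ pr) (v : κ → ℂ) (e : (Unit ⊕ κ → ℂ) → (Unit ⊕ κ → ℂ)) (x : Unit ⊕ κ → ℂ) : Unit ⊕ κ → ℂ :=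
  fun i => ∑ k, e (T.tr v x) k * trJ T (bas x) v k i

/-- The pull-back of a 1-form under `T.F γ`. -/
noncomputable def pbF1 (T : TorusFamily κ pr) (γ : G) (e : (Unit ⊕ κ → ℂ) → (Unit ⊕ κ → ℂ)) (x : Unit ⊕ κ → ℂ) : Unit ⊕ κ → ℂ :=
  fun i => ∑ k, e (T.F γ x) k * jac (T.F γ) x k i

/-- The average of a 1-form. -/
noncomputable def kavg1 (T : TorusFamily κ pr) (μ : Measure (κ → ℂ)) (e : (Unit ⊕ κ → ℂ) → (Unit ⊕ κ → ℂ)) (x : Unit ⊕ κ → ℂ) : Unit ⊕ κ → ℂ :=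
  fun i => ∫ v, pbt1 T v e x i ∂μ

/-- Smooth `Λ`-periodic 1-forms. -/
structure IsPer (T : TorusFamily κ pr) (e : (Unit ⊕ κ → ℂ) → (Unit ⊕ κ → ℂ)) : Prop where
  smooth : ∀ i, ContDiffOn ℝ ∞ (fun x => e x i) (tot κ halfPlane)
  per : ∀ v ∈ T.Λ, ∀ x ∈ tot κ halfPlane, pbt1 T v e x = e x

private theorem one_pbt1_eq (v : κ → ℂ) (e : (Unit ⊕ κ → ℂ) → (Unit ⊕ κ → ℂ)) (x : Unit ⊕ κ → ℂ) :
    pbt1 T v e x = e (T.tr v x) ᵥ* trJ T (bas x) v := by
  funext i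
  rfl

private theorem one_pbF1_eq (γ : G) (e : (Unit ⊕ κ → ℂ) → (Unit ⊕ κ → ℂ)) (x : Unit ⊕ κ → ℂ) :
    pbF1 T γ e x = e (T.F γ x) ᵥ* jac (T.F γ) x := by
  funext i
  rfl

private theorem one_open : IsOpen (tot κ halfPlane) := isOpen_tot isOpen_halfPlane

theorem pbt1_pbt1 (v w : κ → ℂ) {x : Unit ⊕ κ → ℂ} (hx : x ∈ tot κ halfPlane) : pbt1 T v (pbt1 T w e) x = pbt1 T (v + w) e x := by
  rw [one_pbt1_eq, one_pbt1_eq, one_pbt1_eq, vecMul_vecMul, bas_tr, trJ_mul T hx, tr_tr, add_comm w v]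

private theorem one_trJ_smooth (k i : Unit ⊕ κ) :
    ContDiffOn ℝ ∞ (fun q : (Unit ⊕ κ → ℂ) × (κ → ℂ) => trJ T (bas q.1) q.2 k i) (tot κ halfPlane ×ˢ Set.univ) := by
  rcases k with k | k <;> rcases i with i | i
  · exact contDiffOn_const
  · exact contDiffOn_const
  · exact dper_joint T k
  · exact contDiffOn_const

theorem pbt1_joint (he : ∀ i, ContDiffOn ℝ ∞ (fun x => e x i) (tot κ halfPlane)) (i : Unit ⊕ κ) :
    ContDiffOn ℝ ∞ (fun q : (Unit ⊕ κ → ℂ) × (κ → ℂ) => pbt1 T q.2 e q.1 i) (tot κ halfPlane ×ˢ Set.univ) := by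
  have h : ∀ k : Unit ⊕ κ, ContDiffOn ℝ ∞ (fun q : (Unit ⊕ κ → ℂ) × (κ → ℂ) => e (T.tr q.2 q.1) k * trJ T (bas q.1) q.2 k i)
      (tot κ halfPlane ×ˢ Set.univ) := by
    intro k
    refine ContDiffOn.mul ?_ (one_trJ_smooth k i)
    exact (he k).comp (tr_joint T) (fun q hq => tr_mem T q.2 hq.1)
  exact ContDiffOn.sum fun k _ => h k

theorem pbF1_tr (γ : G) (v : κ → ℂ) {x : Unit ⊕ κ → ℂ} (hx : x ∈ tot κ halfPlane) :
    pbt1 T v (pbF1 T γ e) x = pbF1 T γ (pbt1 T (T.ρ γ v) e) x := by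
  rw [one_pbt1_eq, one_pbF1_eq, one_pbF1_eq, one_pbt1_eq, vecMul_vecMul, vecMul_vecMul, F_tr T γ v hx,
    jac_F_tr T γ v hx]

private theorem one_jac_congr {F H : (Unit ⊕ κ → ℂ) → (Unit ⊕ κ → ℂ)} (h : ∀ x ∈ tot κ halfPlane, F x = H x)
    {x : Unit ⊕ κ → ℂ} (hx : x ∈ tot κ halfPlane) : jac F x = jac H x := by
  ext k i
  exact dz_congr_on one_open (fun y hy => by rw [h y hy]) hx i

private theorem one_F_at (γ : G) {x : Unit ⊕ κ → ℂ} (hx : x ∈ tot κ halfPlane) : DifferentiableAt ℂ (T.F γ) x :=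
  (F_hol T γ).differentiableAt (one_open.mem_nhds hx)

theorem pbF1_mul (he : IsPer T e) (γ δ : G) {x : Unit ⊕ κ → ℂ} (hx : x ∈ tot κ halfPlane) :
    pbF1 T δ (pbF1 T γ e) x = pbF1 T (γ * δ) e x := by
  obtain ⟨v, hv, hF⟩ := F_mul T γ δ
  have hxδ := F_mem T δ hx
  have hxγδ := F_mem T (γ * δ) hx
  have h1 : jac (T.F γ) (T.F δ x) * jac (T.F δ) x = trJ T (bas (T.F (γ * δ) x)) v * jac (T.F (γ * δ)) x := by
    rw [← jac_comp (one_F_at δ hx) (one_F_at γ hxδ)]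
    have h2 : jac (fun y => T.tr v (T.F (γ * δ) y)) x = jac (T.tr v) (T.F (γ * δ) x) * jac (T.F (γ * δ)) x :=
      jac_comp (one_F_at (γ * δ) hx) ((tr_hol T v).differentiableAt (one_open.mem_nhds hxγδ))
    rw [jac_tr T v hxγδ] at h2
    rw [← h2]
    exact one_jac_congr (fun y hy => hF y hy) hx
  have h3 := he.per v hv _ hxγδ
  rw [one_pbt1_eq] at h3
  rw [one_pbF1_eq, one_pbF1_eq, one_pbF1_eq, vecMul_vecMul, h1, ← vecMul_vecMul, hF x hx, h3]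

private theorem one_jac_smooth (γ : G) (k i : Unit ⊕ κ) :
    ContDiffOn ℝ ∞ (fun y => jac (T.F γ) y k i) (tot κ halfPlane) := by
  have h1 : DifferentiableOn ℂ (fun y => fun _ : Unit => jac (T.F γ) y k i) (tot κ halfPlane) :=
    differentiableOn_pi.mpr fun _ => jac_hol one_open (F_hol T γ) k i
  have h2 := hol_contDiffOn one_open h1
  exact contDiffOn_pi.mp h2 ()

theorem pbF1_isPer (he : IsPer T e) (γ : G) : IsPer T (pbF1 T γ e) := by
  refine ⟨fun i => ?_, fun v hv x hx => ?_⟩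
  · have h : ∀ k : Unit ⊕ κ, ContDiffOn ℝ ∞ (fun x => e (T.F γ x) k * jac (T.F γ) x k i) (tot κ halfPlane) := by
      intro k
      refine ContDiffOn.mul ?_ (one_jac_smooth γ k i)
      exact (he.smooth k).comp (hol_contDiffOn one_open (F_hol T γ)) (fun x hx => F_mem T γ hx)
    exact ContDiffOn.sum fun k _ => h k
  · rw [pbF1_tr γ v hx, one_pbF1_eq, one_pbF1_eq, he.per _ (rho_mem γ hv) _ (F_mem T γ hx)]

private theorem one_cont (he : IsPer T e) {x : Unit ⊕ κ → ℂ} (hx : x ∈ tot κ halfPlane) (i : Unit ⊕ κ) :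
    Continuous (fun v : κ → ℂ => pbt1 T v e x i) := by
  have h := (pbt1_joint (T := T) he.smooth i).continuousOn
  exact h.comp_continuous (continuous_const.prodMk continuous_id) (fun v => ⟨hx, Set.mem_univ _⟩)

private theorem one_period (he : IsPer T e) {x : Unit ⊕ κ → ℂ} (hx : x ∈ tot κ halfPlane) (i : Unit ⊕ κ) :
    ∀ v ∈ T.Λ, ∀ a, pbt1 T (a + v) e x i = pbt1 T a e x i := by
  intro v hv a
  rw [← pbt1_pbt1 a v hx, one_pbt1_eq a (pbt1 T v e), he.per v hv _ (tr_mem T a hx), ← one_pbt1_eq]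

theorem kavg1_F (hμ : IsMean T.Λ μ) (he : IsPer T e) (γ : G) {x : Unit ⊕ κ → ℂ} (hx : x ∈ tot κ halfPlane) :
    kavg1 T μ (pbF1 T γ e) x = pbF1 T γ (kavg1 T μ e) x := by
  funext i
  have hF := F_mem T γ hx
  have h1 : ∀ v, pbt1 T v (pbF1 T γ e) x i =
      ∑ k, pbt1 T (T.ρ γ v) e (T.F γ x) k * jac (T.F γ) x k i := fun v => by
    rw [pbF1_tr γ v hx]
    rfl
  change ∫ v, pbt1 T v (pbF1 T γ e) x i ∂μ = ∑ k, (∫ v, pbt1 T v e (T.F γ x) k ∂μ) * jac (T.F γ) x k i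
  simp only [h1]
  rw [integral_finsetSum]
  · refine Finset.sum_congr rfl fun k _ => ?_
    rw [integral_mul_const, mean_rho γ hμ (one_cont he hF k) (one_period he hF k)]
  · intro k _
    exact (hμ.integrable ((one_cont he hF k).comp (rho_continuous γ))).mul_const _

theorem kavg1_sub (hμ : IsMean T.Λ μ) {e' : (Unit ⊕ κ → ℂ) → (Unit ⊕ κ → ℂ)} (he : IsPer T e) (he' : IsPer T e') {x : Unit ⊕ κ → ℂ}
    (hx : x ∈ tot κ halfPlane) (i : Unit ⊕ κ) : kavg1 T μ (fun y i => e' y i - e y i) x i = kavg1 T μ e' x i - kavg1 T μ e x i := by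
  change ∫ v, pbt1 T v (fun y i => e' y i - e y i) x i ∂μ = ∫ v, pbt1 T v e' x i ∂μ - ∫ v, pbt1 T v e x i ∂μ
  rw [← integral_sub (hμ.integrable (one_cont he' hx i)) (hμ.integrable (one_cont he hx i))]
  congr 1
  funext v
  simp only [pbt1, sub_mul, Finset.sum_sub_distrib]

/-- `kavg1 μ e` is invariant under all real translations. -/
theorem kavg1_tr (hμ : IsMean T.Λ μ) (he : IsPer T e) (w : κ → ℂ) {x : Unit ⊕ κ → ℂ} (hx : x ∈ tot κ halfPlane) :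
    pbt1 T w (kavg1 T μ e) x = kavg1 T μ e x := by
  funext i
  have hw := tr_mem T w hx
  change ∑ k, (∫ v, pbt1 T v e (T.tr w x) k ∂μ) * trJ T (bas x) w k i = ∫ v, pbt1 T v e x i ∂μ
  have h1 : ∀ v, ∑ k, pbt1 T v e (T.tr w x) k * trJ T (bas x) w k i = pbt1 T (v + w) e x i := fun v => by
    have h := congrFun (pbt1_pbt1 (T := T) (e := e) w v hx) i
    rw [add_comm w v] at h
    exact h
  have h2 : ∑ k, (∫ v, pbt1 T v e (T.tr w x) k ∂μ) * trJ T (bas x) w k i =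
      ∫ v, ∑ k, pbt1 T v e (T.tr w x) k * trJ T (bas x) w k i ∂μ := by
    rw [integral_finsetSum]
    · refine Finset.sum_congr rfl fun k _ => ?_
      rw [integral_mul_const]
    · intro k _
      exact (hμ.integrable (one_cont he hw k)).mul_const _
  rw [h2]
  simp only [h1]
  exact mean_shift hμ (one_cont he hx i) (one_period he hx i) w

end TGam
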