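import Pool.Agent.Lib.MP_464db4_gt.TG.GeoF
import Pool.Agent.Lib.MP_464db4_gt.YT.Part

/-!
# TG-Sum: the function `∑ χ(γ t) f_γ` for a cocycle `f_γ`, the sum over a group `G` with a homomorphism to `SL(2,ℝ)` of finite kernel
-/

namespace TGam

open Complex Matrix MeasureTheory YT
open scoped ContDiff ComplexConjugate ComplexOrder

variable {κ : Type} [Fintype κ] [DecidableEq κ] {G : Type} [Group G] {pr : G →* Matrix.SpecialLinearGroup (Fin 2) ℝ} {T : TorusFamily κ pr}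
  {f : G → (Unit ⊕ κ → ℂ) → ℝ} {χ : (Unit → ℂ) → ℝ} {K : Set (Unit → ℂ)}

/-- `∑ χ(γ t) f_γ(x)` -/
noncomputable def sumf (pr : G →* Matrix.SpecialLinearGroup (Fin 2) ℝ) (χ : (Unit → ℂ) → ℝ) (f : G → (Unit ⊕ κ → ℂ) → ℝ)
    (x : Unit ⊕ κ → ℂ) : ℝ := ∑ᶠ γ : G, χ (mob (pr γ) (bas x)) * f γ x

private theorem sum_term_zero {f : G → (Unit ⊕ κ → ℂ) → ℝ} (h0 : ∀ x, x ∉ K → χ x = 0) {γ : G} {x : Unit ⊕ κ → ℂ}
    (hx : mob (pr γ) (bas x) ∉ K) : χ (mob (pr γ) (bas x)) * f γ x = 0 := by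
  rw [h0 _ hx, zero_mul]

omit [Fintype κ] [DecidableEq κ] in
/-- The preimage of a finite set of elements of the range is finite. -/
theorem finite_preim [Finite pr.ker] {s : Set pr.range} (hs : s.Finite) : {γ : G | pr.rangeRestrict γ ∈ s}.Finite := by
  have h1 : {γ : G | pr.rangeRestrict γ ∈ s} = ⋃ σ ∈ s, {γ : G | pr.rangeRestrict γ = σ} := by
    ext γ
    simp
  rw [h1]
  refine hs.biUnion fun σ _ => ?_
  rcases Set.eq_empty_or_nonempty {γ : G | pr.rangeRestrict γ = σ} with h | ⟨γ₀, hγ₀⟩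
  · rw [h]
    exact Set.finite_empty
  · have h2 : {γ : G | pr.rangeRestrict γ = σ} ⊆ (fun k : pr.ker => γ₀ * (k : G)) '' Set.univ := by
      intro γ hγ
      have h3 : pr γ = pr γ₀ := by
        have h4 : pr.rangeRestrict γ = pr.rangeRestrict γ₀ := (show pr.rangeRestrict γ = σ from hγ).trans (show pr.rangeRestrict γ₀ = σ from hγ₀).symm
        exact congrArg Subtype.val h4
      refine ⟨⟨γ₀⁻¹ * γ, ?_⟩, Set.mem_univ _, ?_⟩
      · rw [MonoidHom.mem_ker, map_mul, map_inv, h3, inv_mul_cancel]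
      · simp
    exact (Set.finite_univ.image _).subset h2

/-- The sum over `G` of a function on the range is the order of the kernel times the sum over the range. -/
theorem finsum_range [Finite pr.ker] {φ : pr.range → ℂ} (hφ : (Function.support φ).Finite) :
    ∑ᶠ γ : G, φ (pr.rangeRestrict γ) = (Nat.card pr.ker : ℂ) * ∑ᶠ σ : pr.range, φ σ := by
  classical
  have hsec : ∀ σ : pr.range, ∃ γ : G, pr.rangeRestrict γ = σ := fun σ => pr.rangeRestrict_surjective σ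
  choose sec hsec' using hsec
  have hmem : ∀ γ : G, (sec (pr.rangeRestrict γ))⁻¹ * γ ∈ pr.ker := by
    intro γ
    have h3 : pr (sec (pr.rangeRestrict γ)) = pr γ := congrArg Subtype.val (hsec' (pr.rangeRestrict γ))
    rw [MonoidHom.mem_ker, map_mul, map_inv, h3, inv_mul_cancel]
  have hk : ∀ (σ : pr.range) (k : pr.ker), pr.rangeRestrict (sec σ * (k : G)) = σ := by
    intro σ k
    have h1 : pr.rangeRestrict (k : G) = 1 := Subtype.ext (MonoidHom.mem_ker.1 k.2)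
    rw [map_mul, h1, mul_one, hsec']
  let e : pr.range × pr.ker ≃ G :=
    { toFun := fun p => sec p.1 * (p.2 : G)
      invFun := fun γ => (pr.rangeRestrict γ, ⟨(sec (pr.rangeRestrict γ))⁻¹ * γ, hmem γ⟩)
      left_inv := by
        rintro ⟨σ, k⟩
        have h1 := hk σ k
        refine Prod.ext h1 (Subtype.ext ?_)
        show (sec (pr.rangeRestrict (sec σ * (k : G))))⁻¹ * (sec σ * (k : G)) = (k : G)
        rw [h1, inv_mul_cancel_left]
      right_inv := by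
        intro γ
        show sec (pr.rangeRestrict γ) * ((sec (pr.rangeRestrict γ))⁻¹ * γ) = γ
        rw [mul_inv_cancel_left] }
  have h1 : ∑ᶠ γ : G, φ (pr.rangeRestrict γ) = ∑ᶠ p : pr.range × pr.ker, φ p.1 := by
    rw [← finsum_comp_equiv e]
    exact finsum_congr fun p => by rw [show pr.rangeRestrict (e p) = p.1 from hk p.1 p.2]
  have : Fintype pr.ker := Fintype.ofFinite _
  have h2 : ∑ᶠ p : pr.range × pr.ker, φ p.1 = ∑ p ∈ hφ.toFinset ×ˢ (Finset.univ : Finset pr.ker), φ p.1 := by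
    refine finsum_eq_sum_of_support_subset _ ?_
    intro p hp
    simp only [Finset.coe_product, Finset.coe_univ, Set.mem_prod, Set.mem_univ, and_true, Set.Finite.coe_toFinset]
    exact hp
  have h3 : ∑ᶠ σ : pr.range, φ σ = ∑ σ ∈ hφ.toFinset, φ σ := finsum_eq_sum_of_support_subset _ (by
    rw [Set.Finite.coe_toFinset])
  rw [h1, h2, h3, Finset.sum_product, Finset.mul_sum]
  refine Finset.sum_congr rfl fun σ _ => ?_
  show ∑ _k : pr.ker, φ σ = (Nat.card pr.ker : ℂ) * φ σ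
  rw [Finset.sum_const, Finset.card_univ, nsmul_eq_mul, Nat.card_eq_fintype_card]

/-- A smooth compactly supported function with `∑ χ(γ x) = 1`, the sum over `G`. -/
theorem exists_partition_hom [Finite pr.ker] (hΓ : CocompactFuchsian pr.range) :
    ∃ χ : (Unit → ℂ) → ℝ, ContDiff ℝ ∞ χ ∧ (∃ K : Set (Unit → ℂ), IsCompact K ∧ K ⊆ halfPlane ∧ ∀ x, x ∉ K → χ x = 0) ∧
      ∀ x ∈ halfPlane, ∑ᶠ γ : G, ((χ (mob (pr γ) x) : ℝ) : ℂ) = 1 := by
  obtain ⟨χ, hχ, ⟨K, hK, hKH, h0⟩, -, -, h1⟩ := exists_partition hΓ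
  have hn : (Nat.card pr.ker : ℝ) ≠ 0 := Nat.cast_ne_zero.2 Nat.card_pos.ne'
  refine ⟨fun x => (Nat.card pr.ker : ℝ)⁻¹ * χ x, contDiff_const.mul hχ, ⟨K, hK, hKH, fun x hx => by simp only [h0 x hx, mul_zero]⟩, fun x hx => ?_⟩
  have hfin : (Function.support fun σ : pr.range => (((Nat.card pr.ker : ℝ)⁻¹ * χ (mob σ x) : ℝ) : ℂ)).Finite := by
    refine (finite_supp hΓ hK hKH hx).subset ?_
    intro γ hγ
    by_contra hn'
    refine hγ ?_
    show (((Nat.card pr.ker : ℝ)⁻¹ * χ (mob γ x) : ℝ) : ℂ) = 0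
    rw [h0 _ hn', mul_zero, Complex.ofReal_zero]
  have h2 : ∑ᶠ γ : G, (((Nat.card pr.ker : ℝ)⁻¹ * χ (mob (pr γ) x) : ℝ) : ℂ) =
      (Nat.card pr.ker : ℂ) * ∑ᶠ σ : pr.range, (((Nat.card pr.ker : ℝ)⁻¹ * χ (mob σ x) : ℝ) : ℂ) :=
    finsum_range (pr := pr) (φ := fun σ : pr.range => (((Nat.card pr.ker : ℝ)⁻¹ * χ (mob σ x) : ℝ) : ℂ)) hfin
  have h3 : ∑ᶠ σ : pr.range, (((Nat.card pr.ker : ℝ)⁻¹ * χ (mob σ x) : ℝ) : ℂ) =
      ((Nat.card pr.ker : ℂ))⁻¹ * ∑ᶠ σ : pr.range, ((χ (mob σ x) : ℝ) : ℂ) := by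
    rw [mul_finsum]
    exact finsum_congr fun σ => by push_cast; ring
  rw [h2, h3, h1 x hx, mul_one]
  exact mul_inv_cancel₀ (by exact_mod_cast hn)

theorem sumf_smooth [Finite pr.ker] (hΓ : CocompactFuchsian pr.range) (hχ : ContDiff ℝ ∞ χ) (hK : IsCompact K) (hKH : K ⊆ halfPlane) (h0 : ∀ x, x ∉ K → χ x = 0)
    (hf : ∀ γ, ContDiffOn ℝ ∞ (fun x => ((f γ x : ℝ) : ℂ)) (tot κ halfPlane)) :
    ContDiffOn ℝ ∞ (fun x => ((sumf pr χ f x : ℝ) : ℂ)) (tot κ halfPlane) := by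
  intro x hx
  obtain ⟨V, hV, hxV, hVH, hfin0⟩ := loc_finite hΓ hK hKH (show bas x ∈ halfPlane from hx)
  have hfin := finite_preim (pr := pr) hfin0
  have hopen : IsOpen (tot κ halfPlane) := isOpen_tot isOpen_halfPlane
  have hVo : IsOpen (tot κ V) := isOpen_tot hV
  have h1 : ContDiffAt ℝ ∞ (fun y : Unit ⊕ κ → ℂ => ∑ γ ∈ hfin.toFinset, ((χ (mob (pr γ) (bas y)) : ℝ) : ℂ) * ((f γ y : ℝ) : ℂ)) x := by
    refine ContDiffAt.sum fun γ _ => ?_
    have h2 : ContDiffOn ℝ ∞ (fun b => ((χ (mob (pr γ) b) : ℝ) : ℂ)) halfPlane := by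
      have h3 : ContDiffOn ℝ ∞ (mob (pr γ)) halfPlane := hol_contDiffOn isOpen_halfPlane (mob_hol (pr γ))
      exact (Complex.ofRealCLM.contDiff.comp hχ).comp_contDiffOn h3
    have h4 : ContDiffAt ℝ ∞ (fun y : Unit ⊕ κ → ℂ => ((χ (mob (pr γ) (bas y)) : ℝ) : ℂ)) x :=
      (contDiffOn_bas (κ := κ) h2).contDiffAt (hopen.mem_nhds hx)
    exact h4.mul ((hf γ).contDiffAt (hopen.mem_nhds hx))
  have h5 : (fun y => ((sumf pr χ f y : ℝ) : ℂ)) =ᶠ[nhds x]
      fun y : Unit ⊕ κ → ℂ => ∑ γ ∈ hfin.toFinset, ((χ (mob (pr γ) (bas y)) : ℝ) : ℂ) * ((f γ y : ℝ) : ℂ) := by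
    filter_upwards [hVo.mem_nhds (show x ∈ tot κ V from hxV)] with y hy
    have h6 : sumf pr χ f y = ∑ γ ∈ hfin.toFinset, χ (mob (pr γ) (bas y)) * f γ y := by
      refine finsum_eq_sum_of_support_subset _ ?_
      intro γ hγ
      rw [Set.Finite.coe_toFinset]
      by_contra hn
      exact hγ (sum_term_zero h0 fun hy' => hn ⟨bas y, hy, hy'⟩)
    rw [h6, Complex.ofReal_sum]
    refine Finset.sum_congr rfl fun γ _ => ?_
    rw [Complex.ofReal_mul]
  exact (h1.congr_of_eventuallyEq h5).contDiffWithinAt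

theorem sumf_F [Finite pr.ker] (hΓ : CocompactFuchsian pr.range) (hK : IsCompact K) (hKH : K ⊆ halfPlane) (h0 : ∀ x, x ∉ K → χ x = 0)
    (h1 : ∀ x ∈ halfPlane, ∑ᶠ γ : G, ((χ (mob (pr γ) x) : ℝ) : ℂ) = 1)
    (hf : ∀ γ δ : G, ∀ x ∈ tot κ halfPlane, f (γ * δ) x = f γ (T.F δ x) + f δ x) (δ : G) {x : Unit ⊕ κ → ℂ} (hx : x ∈ tot κ halfPlane) :
    sumf pr χ f (T.F δ x) = sumf pr χ f x - f δ x := by
  have hb : bas x ∈ halfPlane := hx
  have hfin : (Function.support fun γ : G => χ (mob (pr γ) (bas x))).Finite := by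
    refine (finite_preim (pr := pr) (finite_supp hΓ hK hKH hb)).subset ?_
    intro γ hγ
    by_contra hn
    exact hγ (h0 _ hn)
  have hone : ∑ᶠ γ : G, χ (mob (pr γ) (bas x)) = 1 := by
    have h2 : ((∑ᶠ γ : G, χ (mob (pr γ) (bas x)) : ℝ) : ℂ) = ∑ᶠ γ : G, ((χ (mob (pr γ) (bas x)) : ℝ) : ℂ) :=
      Complex.ofRealHom.toAddMonoidHom.map_finsum hfin
    rw [h1 _ hb] at h2
    exact_mod_cast h2
  have h3 : ∀ γ : G, χ (mob (pr γ) (bas (T.F δ x))) * f γ (T.F δ x) =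
      χ (mob (pr (γ * δ)) (bas x)) * (f (γ * δ) x - f δ x) := by
    intro γ
    rw [bas_F, map_mul, mob_mul _ _ hb, hf γ δ x hx]
    ring
  have h4 : ∑ᶠ γ : G, χ (mob (pr (γ * δ)) (bas x)) * (f (γ * δ) x - f δ x) =
      ∑ᶠ γ : G, χ (mob (pr γ) (bas x)) * (f γ x - f δ x) :=
    finsum_comp_equiv (f := fun γ : G => χ (mob (pr γ) (bas x)) * (f γ x - f δ x)) (Equiv.mulRight δ)
  have hs1 : (Function.support fun γ : G => χ (mob (pr γ) (bas x)) * f γ x).Finite :=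
    hfin.subset fun γ hγ => left_ne_zero_of_mul hγ
  have hs2 : (Function.support fun γ : G => χ (mob (pr γ) (bas x)) * f δ x).Finite :=
    hfin.subset fun γ hγ => left_ne_zero_of_mul hγ
  calc sumf pr χ f (T.F δ x) = ∑ᶠ γ : G, χ (mob (pr γ) (bas x)) * (f γ x - f δ x) := by
        rw [← h4]
        exact finsum_congr h3
    _ = ∑ᶠ γ : G, (χ (mob (pr γ) (bas x)) * f γ x - χ (mob (pr γ) (bas x)) * f δ x) := finsum_congr fun γ => by ring
    _ = ∑ᶠ γ : G, χ (mob (pr γ) (bas x)) * f γ x - ∑ᶠ γ : G, χ (mob (pr γ) (bas x)) * f δ x := finsum_sub_distrib hs1 hs2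
    _ = sumf pr χ f x - f δ x := by
        rw [← finsum_mul, hone, one_mul]
        rfl

theorem sumf_tr {v : κ → ℂ} {x : Unit ⊕ κ → ℂ} (hf : ∀ γ : G, f γ (T.tr v x) = f γ x) : sumf pr χ f (T.tr v x) = sumf pr χ f x := by
  unfold sumf
  refine finsum_congr fun γ => ?_
  have h : bas (T.tr v x) = bas x := bas_add_pt x _
  rw [h, hf γ]

end TGam
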