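import Pool.Agent.Lib.MP_464db4_gt.TG.Coc
import Pool.Agent.Lib.MP_464db4_gt.TG.Sum

/-!
# TG-PrimE: `g` and its average are cohomologous
Port of TF/PrimE.lean.
`μ` from `exists_cmean` (KG-Mean), `χ` from `exists_partition`, `f = sumf pr χ (fg T μ g)`, `E x i = kp μ g x i + dz i f x`.
`IsPrimitive.add_dz` gives smoothness, symmetry and the equation.  Invariance under `T.F δ`: `∑ k, (kp (F x) k + dz k f (F x)) * jac F x k i = pbF1 T δ (kp μ g) x i + dz i (f ∘ F) x` (`dz_comp`)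
`= kp μ g x i + kap δ x i + dz i (f - fg δ) x = kp μ g x i + dz i f x` (`sumf_F`, `fg_dz`, `dz_congr_on`, `dz_sub`).  Under `tr v`, `v ∈ Λ`: `kp_isPrimitive.inv`, `sumf_tr`, `fg_per`.
-/

namespace TGam

open Complex Matrix MeasureTheory YT
open scoped ContDiff ComplexConjugate ComplexOrder

variable {κ : Type} [Fintype κ] [DecidableEq κ] {G : Type} [Group G] {pr : G →* Matrix.SpecialLinearGroup (Fin 2) ℝ} {T : TorusFamily κ pr}
  {g : (Unit ⊕ κ → ℂ) → Matrix (Unit ⊕ κ) (Unit ⊕ κ) ℂ}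

theorem coh_kavg [Finite pr.ker] (hΓ : CocompactFuchsian pr.range) (hg : IsKahler (tot κ halfPlane) T.total g) :
    ∃ μ : Measure (κ → ℂ), IsMean T.Λ μ ∧ Cohomologous (tot κ halfPlane) T.total g (kavg T μ g) := by
  obtain ⟨μ, hμ, hc⟩ := exists_cmean T.Λ T.disc T.span
  obtain ⟨χ, hχ, ⟨K, hK, hKH, h0⟩, h1⟩ := exists_partition_hom hΓ
  have hU : IsOpen (tot κ halfPlane) := isOpen_tot isOpen_halfPlane
  refine ⟨μ, hμ, ?_⟩
  set f : (Unit ⊕ κ → ℂ) → ℝ := sumf pr χ (fg T μ g) with hf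
  have hfs : ContDiffOn ℝ ∞ (fun x => ((f x : ℝ) : ℂ)) (tot κ halfPlane) :=
    sumf_smooth hΓ hχ hK hKH h0 (fun γ => fg_smooth hμ hg γ)
  have hfd : ∀ x ∈ tot κ halfPlane, DifferentiableAt ℝ (fun x => ((f x : ℝ) : ℂ)) x := fun x hx =>
    ((hfs.contDiffAt (hU.mem_nhds hx)).differentiableAt (by simp))
  have hgd : ∀ γ, ∀ x ∈ tot κ halfPlane, DifferentiableAt ℝ (fun x => ((fg T μ g γ x : ℝ) : ℂ)) x := fun γ x hx =>
    (((fg_smooth hμ hg γ).contDiffAt (hU.mem_nhds hx)).differentiableAt (by simp))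
  have hkp := kp_isPrimitive hμ hg
  have hkp0 : IsPrimitive (tot κ halfPlane) ∅ g (kavg T μ g) (kp T μ g) :=
    ⟨hkp.smooth, fun F hF => absurd hF (Set.notMem_empty F), hkp.sym, hkp.eq⟩
  have hE := hkp0.add_dz hU hfs
  refine ⟨fun x i => kp T μ g x i + dz i (fun y => ((f y : ℝ) : ℂ)) x, hE.smooth, ?_, hE.sym, hE.eq⟩
  intro F hF x hx i
  rcases hF with ⟨δ, rfl⟩ | ⟨v, hv, rfl⟩
  · have hFx : T.F δ x ∈ tot κ halfPlane := F_mem T δ hx
    have hFd : DifferentiableAt ℂ (T.F δ) x := (F_hol T δ).differentiableAt (hU.mem_nhds hx)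
    have e1 : ∑ k, dz k (fun y => ((f y : ℝ) : ℂ)) (T.F δ x) * jac (T.F δ) x k i =
        dz i (fun y => ((f (T.F δ y) : ℝ) : ℂ)) x := by
      rw [dz_comp hFd (hfd _ hFx) i]
    have e2 : dz i (fun y => ((f (T.F δ y) : ℝ) : ℂ)) x =
        dz i (fun y => ((f y : ℝ) : ℂ)) x - kap T μ g δ x i := by
      rw [← fg_dz hμ hc hg δ hx i, ← dz_sub i (hfd x hx) (hgd δ x hx)]
      refine dz_congr_on hU (fun y hy => ?_) hx i
      have h2 : f (T.F δ y) = f y - fg T μ g δ y :=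
        sumf_F hΓ hK hKH h0 h1 (fun γ δ' z hz => fg_coc hμ hc hg γ δ' hz) δ hy
      rw [h2, Complex.ofReal_sub]
    have e3 : ∑ k, kp T μ g (T.F δ x) k * jac (T.F δ) x k i = kp T μ g x i + kap T μ g δ x i := by
      have h3 : kap T μ g δ x i = pbF1 T δ (kp T μ g) x i - kp T μ g x i := rfl
      rw [h3]
      unfold pbF1
      ring
    simp only [add_mul, Finset.sum_add_distrib]
    rw [e1, e2, e3]
    ring
  · have hvx : T.tr v x ∈ tot κ halfPlane := tr_mem T v hx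
    have hFd : DifferentiableAt ℂ (T.tr v) x := (tr_hol T v).differentiableAt (hU.mem_nhds hx)
    have e1 : ∑ k, dz k (fun y => ((f y : ℝ) : ℂ)) (T.tr v x) * jac (T.tr v) x k i =
        dz i (fun y => ((f y : ℝ) : ℂ)) x := by
      rw [← dz_comp hFd (hfd _ hvx) i]
      refine dz_congr_on hU (fun y hy => ?_) hx i
      have h2 : f (T.tr v y) = f y := sumf_tr fun γ => fg_per hμ hg γ hv hy
      rw [h2]
    have e3 := hkp.inv (T.tr v) ⟨v, hv, rfl⟩ x hx i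
    simp only [add_mul, Finset.sum_add_distrib]
    rw [e1, e3]

end TGam
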