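import Pool.Agent.Lib.MP_464db4_gt.TG.Flat
import Pool.Agent.Lib.MP_464db4_gt.KT.Strong

/-!
# TG-Res: every Kaehler class of a family of complex tori, or finite quotients of tori, over a compact hyperbolic curve contains a metric of constant scalar curvature
-/

namespace TGam

open Complex Matrix MeasureTheory YT
open scoped ContDiff ComplexConjugate ComplexOrder

variable {κ : Type} [Fintype κ] [DecidableEq κ] {G : Type} [Group G] {pr : G →* Matrix.SpecialLinearGroup (Fin 2) ℝ}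
  {gm : (Unit ⊕ κ → ℂ) → Matrix (Unit ⊕ κ) (Unit ⊕ κ) ℂ}

theorem covers_total (T : TorusFamily κ pr) : Covers pr.range T.total := by
  refine ⟨?_, ?_, ?_⟩
  · rintro F (⟨γ, rfl⟩ | ⟨v, _, rfl⟩)
    · exact F_hol T γ
    · exact tr_hol T v
  · rintro F (⟨γ, rfl⟩ | ⟨v, _, rfl⟩)
    · exact ⟨pr γ, ⟨γ, rfl⟩, fun x _ => bas_F T γ x⟩
    · exact ⟨1, pr.range.one_mem, fun x _ => by rw [bas_tr, mob_one]⟩
  · rintro _ ⟨γ, rfl⟩
    exact ⟨T.F γ, Or.inl ⟨γ, rfl⟩, fun x _ => bas_F T γ x⟩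

theorem trJ_det (T : TorusFamily κ pr) (b : Unit → ℂ) (v : κ → ℂ) : (trJ T b v).det = 1 := by
  unfold trJ
  rw [det_fromBlocks_zero₁₂, det_one, det_one, one_mul]

theorem isSemiFlat_of_flat (T : TorusFamily κ pr) (h : ∀ w, ∀ x ∈ tot κ halfPlane, pbt T w gm x = gm x) : IsSemiFlat gm := by
  have key : ∀ x ∈ tot κ halfPlane, ∃ v : κ → ℂ,
      (trJ T (bas x) v)ᵀ * gm x * mconj (trJ T (bas x) v) = gm (pt (bas x) 0) := by
    intro x hx
    have hb : bas x ∈ halfPlane := hx
    obtain ⟨v, hv⟩ := (T.bij (bas x) hb).2 (fib x)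
    have h0 : (pt (bas x) 0 : Unit ⊕ κ → ℂ) ∈ tot κ halfPlane := pt_mem_tot hb 0
    have e1 : T.tr v (pt (bas x) 0) = x := by
      have e2 : T.per (bas x) v = fib x := hv
      funext k
      rcases k with k | k
      · show x (Sum.inl k) + 0 = x (Sum.inl k)
        rw [add_zero]
      · show 0 + T.per (bas x) v k = x (Sum.inr k)
        rw [e2, zero_add]
        rfl
    refine ⟨v, ?_⟩
    have h1 := h v _ h0
    unfold pbt at h1
    rw [e1] at h1
    exact h1
  refine ⟨fun x hx => ?_, fun x hx => ?_⟩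
  · obtain ⟨v, hv⟩ := key x hx
    have h2 := congrArg Matrix.toBlocks₂₂ hv
    rw [← h2]
    unfold trJ
    conv_rhs => rw [← fromBlocks_toBlocks (gm x)]
    rw [mconj, fromBlocks_map, fromBlocks_transpose, fromBlocks_multiply, fromBlocks_multiply, toBlocks_fromBlocks₂₂]
    simp
  · obtain ⟨v, hv⟩ := key x hx
    have h2 := congrArg Matrix.det hv
    rw [det_mul, det_mul, det_transpose, trJ_det] at h2
    have h3 : (mconj (trJ T (bas x) v)).det = 1 := by
      have h4 := RingHom.map_det (starRingEnd ℂ) (trJ T (bas x) v)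
      rw [trJ_det, map_one] at h4
      exact h4.symm
    rw [h3, one_mul, mul_one] at h2
    exact h2

theorem glueK_flat (T : TorusFamily κ pr) {β' : (Unit → ℂ) → Matrix Unit Unit ℂ} {w : κ → ℂ} {x : Unit ⊕ κ → ℂ}
    (hx : x ∈ tot κ halfPlane) (h : pbt T w gm x = gm x) :
    (jac (T.tr w) x)ᵀ * glueK gm β' (T.tr w x) * mconj (jac (T.tr w) x) = glueK gm β' x := by
  rw [jac_tr T w hx]
  unfold pbt at h
  unfold glueK
  rw [mul_add, add_mul, h, bas_tr]
  congr 1
  unfold trJ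
  rw [asm_corr_block]
  unfold mconj
  simp

/-- Every Kaehler class of the total space of a holomorphic family of complex tori over a compact hyperbolic curve contains a metric of constant scalar curvature,
invariant under the flat real translations of the fibres, whose Ricci form is a negative multiple of the pull-back of the form induced on the base. -/
theorem family_strong [Finite pr.ker] (hΓ : CocompactFuchsian pr.range) (T : TorusFamily κ pr) {g : (Unit ⊕ κ → ℂ) → Matrix (Unit ⊕ κ) (Unit ⊕ κ) ℂ}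
    (hg : IsKahler (tot κ halfPlane) T.total g) :
    ∃ (g' : (Unit ⊕ κ → ℂ) → Matrix (Unit ⊕ κ) (Unit ⊕ κ) ℂ) (β : (Unit → ℂ) → Matrix Unit Unit ℂ) (lam : ℝ), 0 < lam ∧
      IsKahler (tot κ halfPlane) T.total g' ∧ Cohomologous (tot κ halfPlane) T.total g g' ∧
      (∀ w, ∀ x ∈ tot κ halfPlane, (jac (T.tr w) x)ᵀ * g' (T.tr w x) * mconj (jac (T.tr w) x) = g' x) ∧
      IsKahler halfPlane (mobs pr.range) β ∧
      (∀ x ∈ tot κ halfPlane, β (bas x) =
        (g' x).toBlocks₁₁ - (g' x).toBlocks₁₂ * ((g' x).toBlocks₂₂)⁻¹ * ((g' x).toBlocks₁₂)ᴴ) ∧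
      (∀ x ∈ tot κ halfPlane, ∀ i j, -dz i (fun y => dzbar j (logdet g') y) x =
        ((-lam : ℝ) : ℂ) * (fromBlocks (β (bas x)) 0 0 0 : Matrix (Unit ⊕ κ) (Unit ⊕ κ) ℂ) i j) ∧
      ∀ x ∈ tot κ halfPlane, scal g' x = ((-lam : ℝ) : ℂ) := by
  obtain ⟨gm, hgm, hc, hf⟩ := exists_flat hΓ T hg
  have hsf := isSemiFlat_of_flat T hf
  obtain ⟨β', lam, hl, hβ, hg', hc', hr, hs⟩ := semiflat_strong hΓ (covers_total T) hgm hsf
  refine ⟨glueK gm β', β', lam, hl, hg', coh_trans (isOpen_tot isOpen_halfPlane) hc hc',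
    fun w x hx => glueK_flat T hx (hf w x hx), hβ, fun x hx => (schur_glueK hgm hsf hx).symm, fun x hx i j => ?_, hs⟩
  rw [hr x hx i j]
  push_cast
  ring

end TGam
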